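import Pool.Agent.U6.EK.Stm

/-!
# Project EK, package ES: elementary symmetric sums are small
-/

set_option autoImplicit false

namespace Pool.Agent.U97.EK

open Finset Filter Topology
open Pool.Agent.U923.PP (es cnt nev WH PW)
open Pool.Agent.U6.EK

/-- elementary symmetric sums are at most `(∑ q)^K / K!` -/
theorem es_le (P : Finset ℕ) (q : ℕ → ℝ) (hq : ∀ p ∈ P, 0 ≤ q p) (K : ℕ) :
    es P q K * (K.factorial : ℝ) ≤ (∑ p ∈ P, q p) ^ K := by
  induction K with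
  | zero => simp [Pool.Agent.U923.PP.es_zero]
  | succ r ih =>
    have h1 := Pool.Agent.U923.PP.es_count q P r
    have hS : 0 ≤ ∑ p ∈ P, q p := sum_nonneg hq
    have h2 : ∑ p ∈ P, q p * es (P.erase p) q r ≤ (∑ p ∈ P, q p) * es P q r := by
      rw [sum_mul]
      exact sum_le_sum fun p hp =>
        mul_le_mul_of_nonneg_left (Pool.Agent.U923.PP.es_mono_erase P hq p r) (hq p hp)
    have hf : (0 : ℝ) ≤ (r.factorial : ℝ) := Nat.cast_nonneg _
    rw [Nat.factorial_succ, Nat.cast_mul, Nat.cast_add, Nat.cast_one]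
    calc es P q (r + 1) * (((r : ℝ) + 1) * (r.factorial : ℝ))
        = (((r : ℝ) + 1) * es P q (r + 1)) * (r.factorial : ℝ) := by ring
      _ ≤ ((∑ p ∈ P, q p) * es P q r) * (r.factorial : ℝ) :=
          mul_le_mul_of_nonneg_right (h1.le.trans h2) hf
      _ = (∑ p ∈ P, q p) * (es P q r * (r.factorial : ℝ)) := by ring
      _ ≤ (∑ p ∈ P, q p) * (∑ p ∈ P, q p) ^ r := mul_le_mul_of_nonneg_left ih hS
      _ = (∑ p ∈ P, q p) ^ (r + 1) := by ring

/-- Package ES. -/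
theorem t_ES : T_ES := by
  intro P q K x hq hx
  have hS : 0 ≤ ∑ p ∈ P, q p := sum_nonneg hq
  have h1 := es_le P q hq K
  have hK : (0 : ℝ) < (K.factorial : ℝ) := by exact_mod_cast K.factorial_pos
  have h2 : es P q K ≤ (∑ p ∈ P, q p) ^ K / (K.factorial : ℝ) := (le_div_iff₀ hK).2 h1
  have hy : 0 ≤ 2 * x * ∑ p ∈ P, q p := mul_nonneg (mul_nonneg zero_le_two hx) hS
  have h3 := Real.pow_div_factorial_le_exp (2 * x * ∑ p ∈ P, q p) hy K
  calc es P q K * x ^ K ≤ (∑ p ∈ P, q p) ^ K / (K.factorial : ℝ) * x ^ K :=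
        mul_le_mul_of_nonneg_right h2 (pow_nonneg hx K)
    _ = (1 / 2) ^ K * ((2 * x * ∑ p ∈ P, q p) ^ K / (K.factorial : ℝ)) := by
        rw [mul_pow, mul_pow]
        have : (1 / 2 : ℝ) ^ K * 2 ^ K = 1 := by rw [← mul_pow]; norm_num
        calc (∑ p ∈ P, q p) ^ K / (K.factorial : ℝ) * x ^ K
            = 1 * (x ^ K * (∑ p ∈ P, q p) ^ K / (K.factorial : ℝ)) := by ring
          _ = ((1 / 2 : ℝ) ^ K * 2 ^ K) * (x ^ K * (∑ p ∈ P, q p) ^ K / (K.factorial : ℝ)) := by rw [this]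
          _ = _ := by ring
    _ ≤ (1 / 2) ^ K * Real.exp (2 * x * ∑ p ∈ P, q p) :=
        mul_le_mul_of_nonneg_left h3 (by positivity)

end Pool.Agent.U97.EK
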